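import Pool.Agent.Y911.US.Main

/-!
# Vojta's inequality for almost all points of the line, uniformly in `S` for almost all `S`

`K` is a number field of degree `d`, `α_1, …, α_q` are `q ≥ 3` distinct points of the projective
line over `K`, `S₀` is a finite set of primes. For a nonzero ideal `n` let `S(n)` consist of the
primes of `S₀` and those dividing `n`, and let
`N_n(x) = ∑_{v ∉ S(n)} ∑_l λ⁽¹⁾_v(α_l, x)`, the right-hand side of the inequality for `S = S(n)`.
For all ideals `n` but a proportion `δ`, and for all `Y ≥ 1` simultaneously, at most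
`(C / δ) Y ^ (2 d / q - ν)` points of all heights with `N_n(x) ≤ log Y` violate
`(q - ε) h(x) ≤ N_n(x) + C₀`, where `C` and `ν` do not depend on `n`; the conjecture has the
coefficient `q - 2 - ε`, and a constant depending on `S`.
-/

set_option autoImplicit false

namespace Pool.Agent.Results.MP_4d5ce1_nt.UniformInS

open NumberField IsDedekindDomain

section Defs

variable {K : Type} [Field K] [NumberField K]

/-- the absolute logarithmic height (the height of Mathlib is relative to `K`) -/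
noncomputable def height (x : Fin 2 → K) : ℝ :=
  Height.logHeight x / (Module.finrank ℚ K : ℝ)

/-- the sum over the primes `v ∉ T` and over `l` of the truncated local heights
`λ⁽¹⁾_v(α_l, x) = min (λ_v(α_l, x), log N(v) / d)` -/
noncomputable def counting (T : Set (HeightOneSpectrum (𝓞 K))) {q : ℕ} (α : Fin q → Fin 2 → K)
    (x : Fin 2 → K) : ℝ :=
  ∑ᶠ (v : HeightOneSpectrum (𝓞 K)) (_ : v ∉ T), ∑ l : Fin q,
    min
      (Real.log
          (max (FinitePlace.mk v (x 0)) (FinitePlace.mk v (x 1)) *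
            max (FinitePlace.mk v (α l 0)) (FinitePlace.mk v (α l 1)) /
            FinitePlace.mk v (x 0 * α l 1 - x 1 * α l 0)) /
        (Module.finrank ℚ K : ℝ))
      (Real.log (Ideal.absNorm v.asIdeal : ℝ) / (Module.finrank ℚ K : ℝ))

/-- the points `[x 0 : x 1]` of the projective line over `K`, different from all the `α_l`, with
`∑_{v ∉ T} ∑_l λ⁽¹⁾_v(α_l, x) ≤ log Y`; there is no condition on the height -/
def Points (T : Set (HeightOneSpectrum (𝓞 K))) {q : ℕ} (α : Fin q → Fin 2 → K) (Y : ℝ) :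
    Set (Projectivization K (Fin 2 → K)) :=
  {P | ∃ (x : Fin 2 → K) (hx : x ≠ 0), P = Projectivization.mk K x hx ∧
    (∀ l, x 0 * α l 1 - x 1 * α l 0 ≠ 0) ∧ counting T α x ≤ Real.log Y}

/-- the points of `Points T α Y` at which `(q - ε) h(x) ≤ ∑_{v ∉ T} ∑_l λ⁽¹⁾_v(α_l, x) + C`
fails -/
def Exceptions (T : Set (HeightOneSpectrum (𝓞 K))) {q : ℕ} (α : Fin q → Fin 2 → K)
    (ε C Y : ℝ) : Set (Projectivization K (Fin 2 → K)) :=
  {P | ∃ (x : Fin 2 → K) (hx : x ≠ 0), P = Projectivization.mk K x hx ∧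
    (∀ l, x 0 * α l 1 - x 1 * α l 0 ≠ 0) ∧ counting T α x ≤ Real.log Y ∧
    counting T α x + C < ((q : ℝ) - ε) * height x}

/-- `S(n)`: the primes of `S₀` and those dividing `n` -/
def primesOf (S₀ : Set (HeightOneSpectrum (𝓞 K))) (n : Ideal (𝓞 K)) :
    Set (HeightOneSpectrum (𝓞 K)) := S₀ ∪ {v | n ≤ v.asIdeal}

end Defs

section Average

variable (K : Type) [Field K] [NumberField K]

/-- the nonzero ideals of norm at most `X` -/
noncomputable def ideals (X : ℕ) : Finset (Ideal (𝓞 K)) :=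
  (Pool.Agent.Y911.RR.fin_ids K X : {n : Ideal (𝓞 K) | n ≠ ⊥ ∧ Ideal.absNorm n ≤ X}.Finite).toFinset

/-- the proportion of the nonzero ideals of norm at most `X` in the set `Q` -/
noncomputable def proportion (X : ℕ) (Q : Set (Ideal (𝓞 K))) : ℝ :=
  ({n | n ∈ ideals K X ∧ n ∈ Q}.ncard : ℝ) / (ideals K X).card

end Average

/-- **Vojta's inequality for almost all points, uniformly in `S` for almost all `S`.**
(0) For every nonzero ideal `n` and every `Y ≥ 1` there are finitely many points with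
`N_n(x) ≤ log Y`.
(1) For every `η > 0` there are `Y₀, C` such that for all `n` and `Y ≥ Y₀` the number of these
points is at least `Y ^ (2 d / q - η)`, and for all `X ≥ 1` and `δ > 0`, for all ideals `n` of norm
`≤ X` but a proportion `δ`, it is at most `(C / δ) Y ^ (2 d / q + η)` for all `Y ≥ 1`.
(2) For all `ε > 0` and `C₀` there are `ν > 0` and `C` such that for all `X ≥ 1` and `δ > 0`, for
all ideals `n` of norm `≤ X` but a proportion `δ`, for all `Y ≥ 1` at most
`(C / δ) Y ^ (2 d / q - ν)` of them violate `(q - ε) h(x) ≤ N_n(x) + C₀`; and there is `Y₁`,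
depending on `δ` but not on `X`, such that, for all ideals `n` of norm `≤ X` but a proportion `δ`,
for all `Y ≥ Y₁` at most the proportion `Y ^ (-ν)` of these points violates it. -/
theorem result (K : Type) [Field K] [NumberField K] (S₀ : Set (HeightOneSpectrum (𝓞 K)))
    (hS : S₀.Finite) (q : ℕ) (hq : 3 ≤ q) (α : Fin q → Fin 2 → K)
    (hα : ∀ i j, i ≠ j → α i 0 * α j 1 - α i 1 * α j 0 ≠ 0) :
    (∀ n : Ideal (𝓞 K), n ≠ ⊥ → ∀ Y : ℝ, 1 ≤ Y → (Points (primesOf S₀ n) α Y).Finite) ∧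
    (∀ η : ℝ, 0 < η →
      (∃ Y₀ : ℝ, ∀ n : Ideal (𝓞 K), n ≠ ⊥ → ∀ Y : ℝ, Y₀ ≤ Y →
        Y ^ (2 * (Module.finrank ℚ K : ℝ) / q - η) ≤
          ((Points (primesOf S₀ n) α Y).ncard : ℝ)) ∧
      ∃ C : ℝ, ∀ X : ℕ, 1 ≤ X → ∀ δ : ℝ, 0 < δ →
        proportion K X {n | ∃ Y : ℝ, 1 ≤ Y ∧
          C / δ * Y ^ (2 * (Module.finrank ℚ K : ℝ) / q + η) <
            ((Points (primesOf S₀ n) α Y).ncard : ℝ)} ≤ δ) ∧
    (∀ ε C₀ : ℝ, 0 < ε → ∃ ν : ℝ, 0 < ν ∧
      (∃ C : ℝ, ∀ X : ℕ, 1 ≤ X → ∀ δ : ℝ, 0 < δ →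
        proportion K X {n | ∃ Y : ℝ, 1 ≤ Y ∧
          C / δ * Y ^ (2 * (Module.finrank ℚ K : ℝ) / q - ν) <
            ((Exceptions (primesOf S₀ n) α ε C₀ Y).ncard : ℝ)} ≤ δ) ∧
      ∀ δ : ℝ, 0 < δ → ∃ Y₁ : ℝ, ∀ X : ℕ, 1 ≤ X →
        proportion K X {n | ∃ Y : ℝ, Y₁ ≤ Y ∧
          Y ^ (-ν) * ((Points (primesOf S₀ n) α Y).ncard : ℝ) <
            ((Exceptions (primesOf S₀ n) α ε C₀ Y).ncard : ℝ)} ≤ δ) :=
  Pool.Agent.Y911.US.main S₀ hS hq α hα

end Pool.Agent.Results.MP_4d5ce1_nt.UniformInS
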